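import Pool.Agent.N443.PL.Up
import Pool.Agent.N443.PL.Low2

/-! The Turán density of `K_5^4` is `11/16` for 4-graphs whose pair-links contain few induced copies of
`K_t ∪ tK_1` and of `K_{t,t} ∪ tK_1`. -/

set_option autoImplicit false

open Finset

namespace Pool.Agent.Results.MP_a4d830_co.FiveCliquePairLinks

/-- number of five-element sets of vertices all of whose four-element subsets are members of `H` -/
def fiveCliques {n : ℕ} (H : Finset (Finset (Fin n))) : ℕ :=
  ((powersetCard 5 (univ : Finset (Fin n))).filter (fun S => powersetCard 4 S ⊆ H)).card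

/-- the vertices `φ j` form an induced copy of the graph `F` in the pair-link of `p` and `q`, that is, in
the graph on the vertices other than `p` and `q` in which `a` and `b` are adjacent when `{p, q, a, b}` is
a member of `H` -/
def IsCopy {n : ℕ} (H : Finset (Finset (Fin n))) {J : Type} (F : SimpleGraph J) (p q : Fin n)
    (φ : J → Fin n) : Prop :=
  p ≠ q ∧ Function.Injective φ ∧ (∀ j, φ j ≠ p ∧ φ j ≠ q) ∧
    ∀ j k, j ≠ k → (F.Adj j k ↔ ({p, q, φ j, φ k} : Finset (Fin n)) ∈ H)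

/-- number of (labelled) induced copies of the graph `F` in the pair-links of `H` -/
noncomputable def copies {n : ℕ} (H : Finset (Finset (Fin n))) {J : Type} (F : SimpleGraph J) : ℕ :=
  Nat.card {x : Fin n × Fin n × (J → Fin n) // IsCopy H F x.1 x.2.1 x.2.2}

/-- `K_t ∪ tK_1`: a complete graph with `t` vertices and `t` isolated vertices -/
def cliqueAndPoints (t : ℕ) : SimpleGraph (Fin t ⊕ Fin t) :=
  (⊤ : SimpleGraph (Fin t)) ⊕g (⊥ : SimpleGraph (Fin t))

/-- `K_{t,t} ∪ tK_1`: a complete bipartite graph with parts of size `t` and `t` isolated vertices -/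
def bicliqueAndPoints (t : ℕ) : SimpleGraph ((Fin t ⊕ Fin t) ⊕ Fin t) :=
  (completeBipartiteGraph (Fin t) (Fin t)) ⊕g (⊥ : SimpleGraph (Fin t))

open Pool.Agent.N443.PL
open Pool.Agent.Y440.P (fv)
open Pool.Agent.Y440.A (nin)

theorem fv_le {n : ℕ} (H : Finset (Finset (Fin n))) (hH : H ⊆ powersetCard 4 univ) :
    fv H 5 ≤ fiveCliques H := by
  unfold fv fiveCliques
  refine card_le_card fun S hS => ?_
  obtain ⟨h1, h2⟩ := mem_filter.mp hS
  refine mem_filter.mpr ⟨h1, ?_⟩
  have h3 : H.filter (· ⊆ S) ⊆ powersetCard 4 S := by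
    intro Q hQ
    rw [mem_filter] at hQ
    exact mem_powersetCard.2 ⟨hQ.2, (mem_powersetCard.1 (hH hQ.1)).2⟩
  have h4 : H.filter (· ⊆ S) = powersetCard 4 S := by
    refine eq_of_subset_of_card_le h3 ?_
    rw [card_powersetCard, (mem_powersetCard.mp h1).2]
    exact h2.ge
  rw [← h4]
  exact filter_subset _ _

theorem OC_le {n : ℕ} (H : Finset (Finset (Fin n))) {J : Type} [Fintype J] (F : SimpleGraph J) :
    (OC H F).card ≤ copies H F := by
  classical
  unfold copies
  rw [Nat.card_eq_fintype_card, ← Fintype.card_coe (OC H F)]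
  refine Fintype.card_le_of_injective (fun w : {w // w ∈ OC H F} =>
    (⟨(w.1 (Sum.inl 0), w.1 (Sum.inl 1), fun j => w.1 (Sum.inr j)), ?_⟩ :
      {x : Fin n × Fin n × (J → Fin n) // IsCopy H F x.1 x.2.1 x.2.2})) ?_
  · obtain ⟨hi, hF⟩ := mem_OC.mp w.2
    refine ⟨fun h => ?_, fun j k h => Sum.inr_injective (hi h), fun j => ⟨fun h => ?_, fun h => ?_⟩, hF⟩
    · exact absurd (hi h) (by simp)
    · exact absurd (hi h) (by simp)
    · exact absurd (hi h) (by simp)
  · rintro ⟨w, hw⟩ ⟨w', hw'⟩ h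
    have h0 := congrArg Subtype.val h
    have h1 := (Prod.mk.inj h0).1
    have h2 := (Prod.mk.inj (Prod.mk.inj h0).2).1
    have h3 := (Prod.mk.inj (Prod.mk.inj h0).2).2
    refine Subtype.ext (funext ?_)
    rintro (i | j)
    · fin_cases i
      · exact h1
      · exact h2
    · exact congrFun h3 j

theorem cp_of {n : ℕ} {H : Finset (Finset (Fin n))} {J : Type} {F : SimpleGraph J} {p q : Fin n}
    {φ : J → Fin n} (h : IsCopy H F p q φ) : Cp H F (Sum.elim ![p, q] φ) := by
  obtain ⟨hpq, hi, ha, hF⟩ := h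
  refine ⟨?_, fun j k hjk => hF j k hjk⟩
  rintro (i | i) (j | j) hij
  · fin_cases i <;> fin_cases j
    · rfl
    · exact absurd hij hpq
    · exact absurd hij hpq.symm
    · rfl
  · fin_cases i
    · exact absurd hij.symm (ha j).1
    · exact absurd hij.symm (ha j).2
  · fin_cases j
    · exact absurd hij (ha i).1
    · exact absurd hij (ha i).2
  · exact congrArg Sum.inr (hi hij)

theorem copies_zero {n : ℕ} {H : Finset (Finset (Fin n))} {J : Type} {F : SimpleGraph J}
    (h : ∀ w, ¬ Cp H F w) : copies H F = 0 := by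
  unfold copies
  have : IsEmpty {x : Fin n × Fin n × (J → Fin n) // IsCopy H F x.1 x.2.1 x.2.2} :=
    ⟨fun x => h _ (cp_of x.2)⟩
  exact Nat.card_of_isEmpty

/-- For every `t`: a 4-graph with few `K_5^4` and with few induced copies of `K_t ∪ tK_1` and of
`K_{t,t} ∪ tK_1` in its pair-links has density at most `11/16 + o(1)`; there are 4-graphs of density
`11/16 - o(1)` without `K_5^4` and without any such copy, for all `t ≥ 2` at once. -/
theorem result :
    (∀ (t : ℕ) (ε : ℝ), 0 < ε → ∃ δ : ℝ, 0 < δ ∧ ∃ n0 : ℕ, ∀ n : ℕ, n0 ≤ n →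
      ∀ H : Finset (Finset (Fin n)), H ⊆ powersetCard 4 univ →
        (fiveCliques H : ℝ) ≤ δ * (n : ℝ) ^ 5 →
        (copies H (cliqueAndPoints t) : ℝ) ≤ δ * (n : ℝ) ^ (2 * t + 2) →
        (copies H (bicliqueAndPoints t) : ℝ) ≤ δ * (n : ℝ) ^ (3 * t + 2) →
        (H.card : ℝ) ≤ (11 / 16 + ε) * (n.choose 4 : ℝ)) ∧
    (∀ ε : ℝ, 0 < ε → ∃ n0 : ℕ, ∀ n : ℕ, n0 ≤ n →
      ∃ H : Finset (Finset (Fin n)), H ⊆ powersetCard 4 univ ∧ fiveCliques H = 0 ∧
        (∀ t : ℕ, 2 ≤ t → copies H (cliqueAndPoints t) = 0 ∧ copies H (bicliqueAndPoints t) = 0) ∧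
        (11 / 16 - ε) * (n.choose 4 : ℝ) ≤ (H.card : ℝ)) := by
  constructor
  · intro t ε hε
    obtain ⟨δ, hδ, n0, h0⟩ := upper t ε hε
    refine ⟨δ, hδ, max n0 5, fun n hn H hH h5 h1 h2 => ?_⟩
    have e1 : 2 * t + 2 = 2 + (t + t) := by omega
    have e2 : 3 * t + 2 = 2 + (t + t + t) := by omega
    rw [e1] at h1
    rw [e2] at h2
    have h := (h0 n ((le_max_left _ _).trans hn) H hH
      (le_trans (by exact_mod_cast fv_le H hH) h5)
      (le_trans (by exact_mod_cast OC_le H (G1 t)) h1)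
      (le_trans (by exact_mod_cast OC_le H (G2 t)) h2)).2
    have hp4 : (0 : ℝ) < (n.choose 4 : ℝ) := by
      exact_mod_cast Nat.choose_pos (by have := (le_max_right _ _).trans hn; omega)
    have h3 : (0 : ℝ) ≤ 3 / 5 * ((fv H 1 : ℝ) / (n.choose 5 : ℝ)) := by positivity
    have h4 : (H.card : ℝ) / (n.choose 4 : ℝ) ≤ 11 / 16 + ε := by linarith
    rwa [div_le_iff₀ hp4] at h4
  · intro ε hε
    obtain ⟨n0, h0⟩ := lower ε hε
    refine ⟨n0, fun n hn => ?_⟩
    obtain ⟨H, hH, hf, ht, hc⟩ := h0 n hn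
    refine ⟨H, hH, ?_, fun t h2 => ⟨copies_zero (ht t h2).1, copies_zero (ht t h2).2⟩, hc⟩
    unfold fiveCliques
    rw [card_eq_zero, filter_eq_empty_iff]
    intro S hS hS2
    exact hf ⟨S, (mem_powersetCard.mp hS).2, hS2⟩

end Pool.Agent.Results.MP_a4d830_co.FiveCliquePairLinks
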