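import Pool.Agent.N465.L2q.Fnq

/-!
# The codegree-squared Turan density of `K_5^4` is `31/64`

With stability (few five-sets span an odd number of edges).  Consequence: within the `K_5^4`-free 4-graphs of codegree
variance at least `3/256 - o(1)` the maximal density is `11/16`.
-/

set_option autoImplicit false

open Filter Topology

namespace Pool.Agent.Results.MP_a4d830_co.FiveCliqueSquares

open Pool.Agent.N465.L2q.Sq

/-- (1) The maximum of the codegree square sum of `K_5^4`-free 4-graphs on `n` vertices, divided by `C(n,3) (n-3)^2`, tends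
to `31/64`.  (2) For every `K_5^4`-free 4-graph the square of the edge density plus the variance of the relative codegree
plus `1/1280` times the proportion of the five-sets that span an odd number of edges is at most `31/64 + C/n`; and the edge
density is at most `11/16 + δ + C/n` if the variance is at least `3/256 - δ`.
(3) There are `K_5^4`-free 4-graphs whose edge density tends to `11/16` and whose variance tends to `3/256`. -/
theorem result :
    Tendsto (fun n : ℕ => (exSquare n : ℝ) / ((n.choose 3 : ℝ) * ((n : ℝ) - 3) ^ 2)) atTop (𝓝 (31 / 64)) ∧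
    (∃ C : ℝ, ∀ n : ℕ, 4 ≤ n → ∀ G : Finset (Finset (Fin n)), CliqueFree n G →
      density G ^ 2 + variance G + 1 / 1280 * oddFives G ≤ 31 / 64 + C / n ∧
      ∀ δ : ℝ, 0 ≤ δ → 3 / 256 - δ ≤ variance G → density G ≤ 11 / 16 + δ + C / n) ∧
    ∃ G : (k : ℕ) → Finset (Finset (Fin (2 ^ (k + 1)))), (∀ k, CliqueFree (2 ^ (k + 1)) (G k)) ∧
      Tendsto (fun k => density (G k)) atTop (𝓝 (11 / 16)) ∧
      Tendsto (fun k => variance (G k)) atTop (𝓝 (3 / 256)) :=
  ⟨Pool.Agent.N465.L2q.part1 Pool.Agent.N465.L2q.uppR, Pool.Agent.N465.L2q.part2 Pool.Agent.N465.L2q.uppR,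
    Pool.Agent.N465.L2q.part3⟩

end Pool.Agent.Results.MP_a4d830_co.FiveCliqueSquares
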