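import Mathlib
import Pool.Agent.N442.ES.Str
import Pool.Agent.N442.ES.Three

/-!
# Turán densities of `K_m^k`, and of all `k`-graphs, for `k`-graphs with tame link graphs

The link graph of a set `S` of `k - 2` vertices in a `k`-graph `G` has as edges the pairs `ab` of
other vertices with `S ∪ {a, b} ∈ G`. We consider `k`-graphs (`k ≥ 3`) in whose link graphs the three
graphs `K_{t,t}`, `K_t ∪ K_t` and `K_t ∪ t K_1` have few induced copies (`o(n^{k - 2 + 2 t})`, for some
`t`). These are three of the four unavoidable patterns for graphs with many edges and many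
non-edges; the fourth one is the complement of `K_t ∪ t K_1`.

* Structure: each such `k`-graph becomes, after a change of `o(n^k)` edges, the `k`-graph of all
  `k`-sets which are not contained in a class, for some division of the vertices into classes. These
  `k`-graphs have no induced copies of the three graphs, `t ≥ 2`, in their link graphs.
* Erdős–Stone theorem: for every `k`-graph `F` the Turán density of `F` within this family is
  `1 - 1 / (χ(F) - 1) ^ (k - 1)`, where `χ(F)` is the chromatic number (no monochromatic edges). In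
  particular the Turán density of `K_m^k` within the family is `1 - 1 / ⌊(m - 1) / (k - 1)⌋ ^ (k - 1)`,
  for all `m ≥ k ≥ 3`.
* For `k = 3` it is enough that there are few copies of `K_{t,t}`, or of `K_2 ∪ t K_1`.

Proof: if a pattern on a bounded number of vertices has positive density in `G`, then `G` contains, by
Erdős's box theorem and Ramsey's theorem, many large blow-ups of it in which it depends only on the
numbers of vertices in the parts whether a `k`-set is an edge. The three forbidden graphs give two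
exchange rules for the multisets of parts which are edges, and a set of multisets with these rules
consists of the multisets not contained in a class of an equivalence relation. For the structure
theorem this is transferred from samples to `G`.
-/

set_option autoImplicit false

open Finset
open scoped Classical

namespace Pool.Agent.Results.MP_a4d830_co.TameLinks

/-- All edges of `G` have `k` elements. -/
def Uniform (k : ℕ) {n : ℕ} (G : Finset (Finset (Fin n))) : Prop := ∀ e ∈ G, e.card = k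

/-- `G` contains no copy of `F`: every injection of the vertices of `F` into the vertices of `G` maps
some edge of `F` to a set which is not an edge of `G`. -/
def Free {f n : ℕ} (F : Finset (Finset (Fin f))) (G : Finset (Finset (Fin n))) : Prop :=
  ∀ g : Fin f → Fin n, Function.Injective g → ∃ e ∈ F, e.image g ∉ G

/-- `G` contains no `K_m^k`: every set of `m` vertices contains a `k`-set which is not an edge. -/
def CliqueFree (k m : ℕ) {n : ℕ} (G : Finset (Finset (Fin n))) : Prop :=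
  ∀ S : Finset (Fin n), S.card = m → ∃ e ∈ S.powersetCard k, e ∉ G

/-- `F` has a colouring of its vertices with `p` colours and no monochromatic edge. -/
def Colourable (p : ℕ) {f : ℕ} (F : Finset (Finset (Fin f))) : Prop :=
  ∃ c : Fin f → Fin p, ∀ e ∈ F, ∃ x ∈ e, ∃ y ∈ e, c x ≠ c y

/-- The `k`-graph of all `k`-sets of vertices which are not contained in a class of `c`. -/
noncomputable def classes (k : ℕ) {n : ℕ} (c : Fin n → ℕ) : Finset (Finset (Fin n)) :=
  (univ.powersetCard k).filter fun e => ∃ x ∈ e, ∃ y ∈ e, c x ≠ c y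

/-- The number of pairs of a sequence `u` of `d` different vertices of `G` and an injection `f` of the
vertices of the graph `L` into the other vertices of `G` such that `f` embeds `L` as an induced
subgraph into the link graph of the set of the `u i`. (Uniformity `d + 2`.) -/
noncomputable def copies (d : ℕ) {α : Type} (L : SimpleGraph α) {n : ℕ}
    (G : Finset (Finset (Fin n))) : ℕ :=
  Nat.card {p : (Fin d → Fin n) × (α → Fin n) // Function.Injective (Sum.elim p.1 p.2) ∧
    ∀ a b, a ≠ b → (L.Adj a b ↔ insert (p.2 a) (insert (p.2 b) (univ.image p.1)) ∈ G)}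

/-- The graph `K_{t,t}`. -/
def bipartite (t : ℕ) : SimpleGraph (Fin t ⊕ Fin t) := completeBipartiteGraph (Fin t) (Fin t)

/-- The graph `K_t ∪ K_t`. -/
def twoCliques (t : ℕ) : SimpleGraph (Fin t ⊕ Fin t) :=
  (⊤ : SimpleGraph (Fin t)) ⊕g (⊤ : SimpleGraph (Fin t))

/-- The graph `K_t ∪ t K_1`. -/
def cliquePoints (t : ℕ) : SimpleGraph (Fin t ⊕ Fin t) :=
  (⊤ : SimpleGraph (Fin t)) ⊕g (⊥ : SimpleGraph (Fin t))

/-- The graph `K_2 ∪ t K_1`. -/
def edgePoints (t : ℕ) : SimpleGraph (Fin 2 ⊕ Fin t) :=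
  (⊤ : SimpleGraph (Fin 2)) ⊕g (⊥ : SimpleGraph (Fin t))

/-- The `(d + 2)`-graph `G` has few copies of the three graphs in its link graphs. -/
def Few (d t : ℕ) (δ : ℝ) {n : ℕ} (G : Finset (Finset (Fin n))) : Prop :=
  (copies d (bipartite t) G : ℝ) ≤ δ * (n : ℝ) ^ (d + 2 * t) ∧
  (copies d (twoCliques t) G : ℝ) ≤ δ * (n : ℝ) ^ (d + 2 * t) ∧
  (copies d (cliquePoints t) G : ℝ) ≤ δ * (n : ℝ) ^ (d + 2 * t)

open Pool.Agent.N442.ES Pool.Agent.N442.LP

theorem cfg_le_copies (d : ℕ) {α : Type} [Fintype α] (L : SimpleGraph α) {n : ℕ}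
    (G : Finset (Finset (Fin n))) : cfg d L G ≤ copies d L G := by
  unfold cfg copies
  rw [← Fintype.card_subtype, ← Nat.card_eq_fintype_card]
  refine Nat.card_le_card_of_injective (fun w => ⟨(fun a => w.1 (Sum.inl a),
    fun a => w.1 (Sum.inr a)), w.2⟩) ?_
  intro w w' h
  have h1 := congrArg Subtype.val h
  have h2 := Prod.mk.inj h1
  apply Subtype.ext
  funext x
  rcases x with x | x
  · exact congrFun h2.1 x
  · exact congrFun h2.2 x

theorem qc_le {d : ℕ} {α : Type} [Fintype α] {L : SimpleGraph α} {n : ℕ} (hn : 0 < n)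
    {G : Finset (Finset (Fin n))} {k : ℕ} (hk : d + Fintype.card α = k) {δ : ℝ}
    (h : (copies d L G : ℝ) ≤ δ * (n : ℝ) ^ k) : qc d L n G ≤ δ := by
  unfold qc
  rw [hk, div_le_iff₀ (by positivity)]
  exact le_trans (by exact_mod_cast cfg_le_copies d L G) h

theorem q3_le {d t n : ℕ} (hn : 0 < n) {G : Finset (Finset (Fin n))} {δ : ℝ}
    (h : Few d t (δ / 3) G) : q3 d t n G ≤ δ := by
  obtain ⟨h1, h2, h3⟩ := h
  have a1 := qc_le (L := gBip t) hn (by simp; ring) h1
  have a2 := qc_le (L := gCC t) hn (by simp; ring) h2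
  have a3 := qc_le (L := gCI t) hn (by simp; ring) h3
  unfold q3
  linarith

theorem part1 (d t : ℕ) (hd : 1 ≤ d) (ε : ℝ) (hε : 0 < ε) : ∃ δ : ℝ, 0 < δ ∧ ∃ N : ℕ, ∀ n : ℕ,
    N ≤ n → ∀ G : Finset (Finset (Fin n)), Uniform (d + 2) G → Few d t δ G →
      ∃ c : Fin n → ℕ, ((symmDiff G (classes (d + 2) c)).card : ℝ) ≤ ε * (n : ℝ) ^ (d + 2) := by
  obtain ⟨δ, hδ, N, hN⟩ := structure_thm hd t hε
  refine ⟨δ / 3, by positivity, max N 1, fun n hn G hG hf => ?_⟩
  have hn1 : 0 < n := (le_max_right N 1).trans hn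
  exact hN n ((le_max_left _ _).trans hn) G hG (q3_le hn1 hf)

theorem part2 (d t p f : ℕ) (hp : 1 ≤ p) (F : Finset (Finset (Fin f)))
    (hF : Uniform (d + 2) F) (hc : Colourable (p + 1) F) (ε : ℝ) (hε : 0 < ε) :
    ∃ δ : ℝ, 0 < δ ∧ ∃ N : ℕ, ∀ n : ℕ, N ≤ n → ∀ G : Finset (Finset (Fin n)),
      Uniform (d + 2) G → Free F G → Few d t δ G →
      (G.card : ℝ) ≤ (1 - 1 / (p : ℝ) ^ (d + 1) + ε) * (n.choose (d + 2) : ℝ) := by
  obtain ⟨δ, hδ, N, hN⟩ := upper hp hF hc t hε
  refine ⟨δ / 3, by positivity, max N 1, fun n hn G hG hFG hf => ?_⟩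
  have hn1 : 0 < n := (le_max_right N 1).trans hn
  exact hN n ((le_max_left _ _).trans hn) G hG hFG (q3_le hn1 hf)

theorem cop_le_copies {α : Type} [Fintype α] (L : SimpleGraph α) {n : ℕ}
    (G : Finset (Finset (Fin n))) : cop L G ≤ copies 1 L G := by
  unfold cop copies
  rw [← Fintype.card_subtype, ← Nat.card_eq_fintype_card]
  refine Nat.card_le_card_of_injective (fun w => ⟨(fun _ => w.1 none,
    fun a => w.1 (some a)), ?_⟩) ?_
  · obtain ⟨h1, h2, h3⟩ := w.2
    constructor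
    · rintro (a | a) (b | b) hab
      · exact congrArg Sum.inl (Subsingleton.elim a b)
      · exact absurd hab.symm (h2 b)
      · exact absurd hab (h2 a)
      · exact congrArg Sum.inr (h1 hab)
    · intro a b hab
      rw [h3 a b hab]
      have : insert (w.1 (some a)) (insert (w.1 (some b)) ((univ : Finset (Fin 1)).image
          fun _ => w.1 none)) = ({w.1 none, w.1 (some a), w.1 (some b)} : Finset (Fin n)) := by
        ext x
        simp
        tauto
      rw [this]
  · intro w w' h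
    have h1 := congrArg Subtype.val h
    have h2 := Prod.mk.inj h1
    apply Subtype.ext
    funext x
    rcases x with _ | x
    · exact congrFun h2.1 0
    · exact congrFun h2.2 x

theorem qd_le {α : Type} [Fintype α] {L : SimpleGraph α} {n : ℕ} (hn : 0 < n)
    {G : Finset (Finset (Fin n))} {k : ℕ} (hk : Fintype.card α + 1 = k) {δ : ℝ}
    (h : (copies 1 L G : ℝ) ≤ δ * (n : ℝ) ^ k) : qd L n G ≤ δ := by
  unfold qd
  rw [hk, div_le_iff₀ (by positivity)]
  exact le_trans (by exact_mod_cast cop_le_copies L G) h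

theorem part3 (t p f : ℕ) (hp : 1 ≤ p) (F : Finset (Finset (Fin f)))
    (hF : Uniform 3 F) (hc : Colourable (p + 1) F) (ε : ℝ) (hε : 0 < ε) :
    ∃ δ : ℝ, 0 < δ ∧ ∃ N : ℕ, ∀ n : ℕ, N ≤ n → ∀ G : Finset (Finset (Fin n)),
      Uniform 3 G → Free F G →
      ((copies 1 (bipartite t) G : ℝ) ≤ δ * (n : ℝ) ^ (2 * t + 1) ∨
        (copies 1 (edgePoints t) G : ℝ) ≤ δ * (n : ℝ) ^ (t + 3)) →
      (G.card : ℝ) ≤ (1 - 1 / (p : ℝ) ^ 2 + ε) * (n.choose 3 : ℝ) := by
  obtain ⟨δ, hδ, N, hN⟩ := upper3K hp hF hc t hε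
  obtain ⟨δ', hδ', N', hN'⟩ := upper3E hp hF hc t hε
  refine ⟨min δ δ', lt_min hδ hδ', max (max N N') 1, fun n hn G hG hFG h => ?_⟩
  have hn1 : 0 < n := (le_max_right _ 1).trans hn
  have hnN : N ≤ n := (le_max_left _ _).trans ((le_max_left _ _).trans hn)
  have hnN' : N' ≤ n := (le_max_right _ _).trans ((le_max_left _ _).trans hn)
  rcases h with h | h
  · exact hN n hnN G hG hFG ((qd_le (L := completeBipartiteGraph (Fin t) (Fin t)) hn1
      (by simp; ring) h).trans (min_le_left _ _))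
  · exact hN' n hnN' G hG hFG ((qd_le (L := gE t) hn1 (by simp; ring) h).trans (min_le_right _ _))

theorem part4 (d p : ℕ) (hp : 1 ≤ p) (ε : ℝ) (hε : 0 < ε) : ∃ N : ℕ, ∀ n : ℕ, N ≤ n →
    ∃ c : Fin n → ℕ, (∀ (f : ℕ) (F : Finset (Finset (Fin f))), ¬ Colourable p F →
      Free F (classes (d + 2) c)) ∧
    (1 - 1 / (p : ℝ) ^ (d + 1) - ε) * (n.choose (d + 2) : ℝ) ≤ ((classes (d + 2) c).card : ℝ) := by
  obtain ⟨N, hN⟩ := TC_lower d p hp hε
  exact ⟨N, fun n hn => ⟨cm p, fun f F hF => TC_free (by omega) hF, hN n hn⟩⟩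

theorem copies_zero {d : ℕ} {α : Type} {L : SimpleGraph α} {n : ℕ} {G : Finset (Finset (Fin n))}
    (h : ∀ (u : Fin d → Fin n) (f : α → Fin n), ¬ IsCfg L G u f) : copies d L G = 0 := by
  unfold copies
  have : IsEmpty {p : (Fin d → Fin n) × (α → Fin n) // Function.Injective (Sum.elim p.1 p.2) ∧
    ∀ a b, a ≠ b → (L.Adj a b ↔ insert (p.2 a) (insert (p.2 b) (univ.image p.1)) ∈ G)} :=
    ⟨fun w => h w.1.1 w.1.2 w.2⟩
  exact Nat.card_of_isEmpty

theorem no_ep {d n t : ℕ} (hd : 1 ≤ d) (ht : 1 ≤ t) {c : Fin n → ℕ} {u : Fin d → Fin n}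
    {f : Fin 2 ⊕ Fin t → Fin n} : ¬ IsCfg (edgePoints t) (TC (d + 2) c) u f := by
  intro h
  have i0 : Fin d := ⟨0, by omega⟩
  have x0 : Fin t := ⟨0, by omega⟩
  have a1 := same_of_not h (a := Sum.inl 0) (b := Sum.inr x0) (by simp) (by simp [edgePoints]) i0
  have a2 := same_of_not h (a := Sum.inl 1) (b := Sum.inr x0) (by simp) (by simp [edgePoints]) i0
  exact diff_of_adj h (a := Sum.inl 0) (b := Sum.inl 1) (by simp [edgePoints]) a1.1 a2.1
    (fun i => seq_of_not h (a := Sum.inl 0) (b := Sum.inr x0) (by simp) (by simp [edgePoints]) i i0)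

theorem part5 (d t n : ℕ) (c : Fin n → ℕ) (hd : 1 ≤ d) (ht : 2 ≤ t) :
    copies d (bipartite t) (classes (d + 2) c) = 0 ∧
    copies d (twoCliques t) (classes (d + 2) c) = 0 ∧
    copies d (cliquePoints t) (classes (d + 2) c) = 0 ∧
    copies d (edgePoints t) (classes (d + 2) c) = 0 :=
  ⟨copies_zero fun _ _ => no_bip hd ht, copies_zero fun _ _ => no_cc hd ht,
    copies_zero fun _ _ => no_ci hd ht, copies_zero fun _ _ => no_ep hd (by omega)⟩

/-- the complete `k`-graph as a list of edges -/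
theorem free_of_cliqueFree {k m n : ℕ} {G : Finset (Finset (Fin n))} (h : CliqueFree k m G) :
    Free ((univ : Finset (Fin m)).powersetCard k) G := by
  intro g hg
  obtain ⟨e, he, heG⟩ := h (univ.image g) (by
    rw [card_image_of_injective _ hg, card_univ, Fintype.card_fin])
  rw [mem_powersetCard] at he
  have h1 : ((univ : Finset (Fin m)).filter fun v => g v ∈ e).image g = e := by
    ext x
    rw [mem_image]
    constructor
    · rintro ⟨v, hv, rfl⟩
      exact (mem_filter.mp hv).2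
    · intro hx
      obtain ⟨v, -, rfl⟩ := mem_image.mp (he.1 hx)
      exact ⟨v, mem_filter.mpr ⟨mem_univ _, hx⟩, rfl⟩
  refine ⟨(univ : Finset (Fin m)).filter fun v => g v ∈ e, mem_powersetCard.mpr
    ⟨subset_univ _, ?_⟩, by rw [h1]; exact heG⟩
  rw [← card_image_of_injective _ hg, h1, he.2]

theorem cliqueFree_of_free {k m n : ℕ} {G : Finset (Finset (Fin n))}
    (h : Free ((univ : Finset (Fin m)).powersetCard k) G) : CliqueFree k m G := by
  intro S hS
  obtain ⟨e, he, heG⟩ := h (S.orderEmbOfFin hS) (S.orderEmbOfFin hS).injective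
  refine ⟨e.image (S.orderEmbOfFin hS), mem_powersetCard.mpr ⟨?_, ?_⟩, heG⟩
  · intro x hx
    obtain ⟨a, -, rfl⟩ := mem_image.mp hx
    exact S.orderEmbOfFin_mem hS a
  · rw [card_image_of_injective _ (S.orderEmbOfFin hS).injective, (mem_powersetCard.mp he).2]

theorem colourable_complete (d m : ℕ) :
    Colourable ((m - 1) / (d + 1) + 1) ((univ : Finset (Fin m)).powersetCard (d + 2)) := by
  refine ⟨fun v => ⟨(v : ℕ) / (d + 1), ?_⟩, fun e he => ?_⟩
  · have : (v : ℕ) / (d + 1) ≤ (m - 1) / (d + 1) := Nat.div_le_div_right (by omega)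
    omega
  · by_contra hcon
    push Not at hcon
    have hc := (mem_powersetCard.mp he).2
    have h1 : e.card ≤ (range (d + 1)).card := by
      refine card_le_card_of_injOn (fun v : Fin m => (v : ℕ) % (d + 1)) ?_ ?_
      · intro v _
        exact mem_coe.mpr (mem_range.mpr (Nat.mod_lt _ (by omega)))
      · intro v hv w hw hvw
        have h2 : (v : ℕ) / (d + 1) = (w : ℕ) / (d + 1) :=
          congrArg (fun x : Fin ((m - 1) / (d + 1) + 1) => (x : ℕ)) (hcon v hv w hw)
        have h3 : (v : ℕ) % (d + 1) = (w : ℕ) % (d + 1) := hvw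
        apply Fin.ext
        rw [← Nat.div_add_mod (v : ℕ) (d + 1), ← Nat.div_add_mod (w : ℕ) (d + 1), h2, h3]
    rw [card_range] at h1
    omega

theorem not_colourable_complete {d m p : ℕ} (h : p * (d + 1) < m) :
    ¬ Colourable p ((univ : Finset (Fin m)).powersetCard (d + 2)) := by
  rintro ⟨c, hc⟩
  obtain ⟨y, -, hy⟩ := exists_lt_card_fiber_of_mul_lt_card_of_maps_to
    (s := (univ : Finset (Fin m))) (t := (univ : Finset (Fin p))) (f := c) (n := d + 1)
    (fun _ _ => mem_univ _) (by rw [card_univ, card_univ, Fintype.card_fin, Fintype.card_fin]; exact h)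
  obtain ⟨e, he, hec⟩ := exists_subset_card_eq (show d + 2 ≤ _ from hy)
  obtain ⟨a, ha, b, hb, hab⟩ := hc e (mem_powersetCard.mpr ⟨subset_univ _, hec⟩)
  exact hab ((mem_filter.mp (he ha)).2.trans (mem_filter.mp (he hb)).2.symm)

theorem part6 (d t m : ℕ) (hm : d + 2 ≤ m) (ε : ℝ) (hε : 0 < ε) :
    (∃ δ : ℝ, 0 < δ ∧ ∃ N : ℕ, ∀ n : ℕ, N ≤ n → ∀ G : Finset (Finset (Fin n)),
      Uniform (d + 2) G → CliqueFree (d + 2) m G → Few d t δ G →
      (G.card : ℝ) ≤ (1 - 1 / (((m - 1) / (d + 1) : ℕ) : ℝ) ^ (d + 1) + ε) *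
        (n.choose (d + 2) : ℝ)) ∧
    (∃ N : ℕ, ∀ n : ℕ, N ≤ n → ∃ c : Fin n → ℕ, CliqueFree (d + 2) m (classes (d + 2) c) ∧
      (1 - 1 / (((m - 1) / (d + 1) : ℕ) : ℝ) ^ (d + 1) - ε) * (n.choose (d + 2) : ℝ) ≤
        ((classes (d + 2) c).card : ℝ)) := by
  have hp : 1 ≤ (m - 1) / (d + 1) := (Nat.one_le_div_iff (by omega)).mpr (by omega)
  constructor
  · obtain ⟨δ, hδ, N, hN⟩ := part2 d t ((m - 1) / (d + 1)) m hp
      ((univ : Finset (Fin m)).powersetCard (d + 2)) (fun e he => (mem_powersetCard.mp he).2)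
      (colourable_complete d m) ε hε
    exact ⟨δ, hδ, N, fun n hn G hG hK hf => hN n hn G hG (free_of_cliqueFree hK) hf⟩
  · obtain ⟨N, hN⟩ := part4 d ((m - 1) / (d + 1)) hp ε hε
    refine ⟨N, fun n hn => ?_⟩
    obtain ⟨c, h1, h2⟩ := hN n hn
    refine ⟨c, cliqueFree_of_free (h1 m _ (not_colourable_complete ?_)), h2⟩
    have := Nat.div_mul_le_self (m - 1) (d + 1)
    omega

/-- Six parts. Uniformity `k = d + 2 ≥ 3`; `few` means at most `δ n ^ (k - 2 + 2 t)` induced copies of
each of `K_{t,t}`, `K_t ∪ K_t`, `K_t ∪ t K_1` in the link graphs of `k - 2` vertices.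
(1) For every `ε` there is a `δ` such that every large `k`-graph with few copies differs in at most
`ε n ^ k` edges from the `k`-graph of the `k`-sets not contained in a class, for some division of the
vertices into classes. (2) If `F` has a colouring with `p + 1 ≥ 2` colours without monochromatic edges,
then every large `F`-free `k`-graph with few copies has at most `(1 - 1 / p ^ (k - 1) + ε) C(n, k)`
edges. (3) For 3-graphs it is enough in (2) that there are few copies of `K_{t,t}` or that there are few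
copies of `K_2 ∪ t K_1`. (4) For all `p ≥ 1` there are classes such that the `k`-graph of the `k`-sets
not contained in a class contains no `F` without a colouring with `p` colours as above, and has at
least `(1 - 1 / p ^ (k - 1) - ε) C(n, k)` edges. (5) These `k`-graphs have no copies at all (`t ≥ 2`).
(6) The case of `K_m^k`, `m ≥ k`: the bound in (2) and (4) is
`1 - 1 / ⌊(m - 1) / (k - 1)⌋ ^ (k - 1)`. -/
theorem result :
    (∀ d t : ℕ, 1 ≤ d → ∀ ε : ℝ, 0 < ε → ∃ δ : ℝ, 0 < δ ∧ ∃ N : ℕ, ∀ n : ℕ, N ≤ n →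
      ∀ G : Finset (Finset (Fin n)), Uniform (d + 2) G → Few d t δ G →
        ∃ c : Fin n → ℕ, ((symmDiff G (classes (d + 2) c)).card : ℝ) ≤ ε * (n : ℝ) ^ (d + 2)) ∧
    (∀ d t p f : ℕ, 1 ≤ d → 1 ≤ p → ∀ F : Finset (Finset (Fin f)), Uniform (d + 2) F →
      Colourable (p + 1) F → ∀ ε : ℝ, 0 < ε → ∃ δ : ℝ, 0 < δ ∧ ∃ N : ℕ, ∀ n : ℕ, N ≤ n →
      ∀ G : Finset (Finset (Fin n)), Uniform (d + 2) G → Free F G → Few d t δ G →
        (G.card : ℝ) ≤ (1 - 1 / (p : ℝ) ^ (d + 1) + ε) * (n.choose (d + 2) : ℝ)) ∧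
    (∀ t p f : ℕ, 1 ≤ p → ∀ F : Finset (Finset (Fin f)), Uniform 3 F →
      Colourable (p + 1) F → ∀ ε : ℝ, 0 < ε → ∃ δ : ℝ, 0 < δ ∧ ∃ N : ℕ, ∀ n : ℕ, N ≤ n →
      ∀ G : Finset (Finset (Fin n)), Uniform 3 G → Free F G →
        ((copies 1 (bipartite t) G : ℝ) ≤ δ * (n : ℝ) ^ (2 * t + 1) ∨
          (copies 1 (edgePoints t) G : ℝ) ≤ δ * (n : ℝ) ^ (t + 3)) →
        (G.card : ℝ) ≤ (1 - 1 / (p : ℝ) ^ 2 + ε) * (n.choose 3 : ℝ)) ∧
    (∀ d p : ℕ, 1 ≤ d → 1 ≤ p → ∀ ε : ℝ, 0 < ε → ∃ N : ℕ, ∀ n : ℕ, N ≤ n → ∃ c : Fin n → ℕ,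
      (∀ (f : ℕ) (F : Finset (Finset (Fin f))), ¬ Colourable p F → Free F (classes (d + 2) c)) ∧
      (1 - 1 / (p : ℝ) ^ (d + 1) - ε) * (n.choose (d + 2) : ℝ) ≤
        ((classes (d + 2) c).card : ℝ)) ∧
    (∀ (d t n : ℕ) (c : Fin n → ℕ), 1 ≤ d → 2 ≤ t →
      copies d (bipartite t) (classes (d + 2) c) = 0 ∧
      copies d (twoCliques t) (classes (d + 2) c) = 0 ∧
      copies d (cliquePoints t) (classes (d + 2) c) = 0 ∧
      copies d (edgePoints t) (classes (d + 2) c) = 0) ∧
    (∀ d t m : ℕ, 1 ≤ d → d + 2 ≤ m → ∀ ε : ℝ, 0 < ε →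
      (∃ δ : ℝ, 0 < δ ∧ ∃ N : ℕ, ∀ n : ℕ, N ≤ n → ∀ G : Finset (Finset (Fin n)),
        Uniform (d + 2) G → CliqueFree (d + 2) m G → Few d t δ G →
        (G.card : ℝ) ≤ (1 - 1 / (((m - 1) / (d + 1) : ℕ) : ℝ) ^ (d + 1) + ε) *
          (n.choose (d + 2) : ℝ)) ∧
      (∃ N : ℕ, ∀ n : ℕ, N ≤ n → ∃ c : Fin n → ℕ, CliqueFree (d + 2) m (classes (d + 2) c) ∧
        (1 - 1 / (((m - 1) / (d + 1) : ℕ) : ℝ) ^ (d + 1) - ε) * (n.choose (d + 2) : ℝ) ≤
          ((classes (d + 2) c).card : ℝ))) :=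
  ⟨fun d t hd => part1 d t hd, fun d t p f _ hp F hF hc => part2 d t p f hp F hF hc,
    fun t p f hp F hF hc => part3 t p f hp F hF hc, fun d p _ hp => part4 d p hp,
    fun d t n c hd ht => part5 d t n c hd ht, fun d t m _ hm => part6 d t m hm⟩

end Pool.Agent.Results.MP_a4d830_co.TameLinks
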