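import Pool.Agent.N594.CT.All3
import Pool.Agent.N594.NT.Gap3

/-!
# Turán's construction for complete hypergraphs: norms, degrees and independent sets

Turán's construction with `k` classes, the `q`-sets not contained in a class, has no complete
subgraph on `m = k (q - 1) + 1` vertices; its density is `1 - k ^ (1 - q)`.

(A) Norms. For `q ≥ 4`, `k ≥ 2` there are `p₀`, `n₀` such that for all `p ≥ p₀`, `n ≥ n₀` the
balanced construction is the unique `K_m^q`-free `q`-graph on `n` vertices with the largest sum over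
the pairs of vertices of the `p`-th power of the degree (`p = 1` is Turán's problem).

(B) Number of edges. There is `ε > 0` such that the `K_m^q`-free `q`-graphs in which almost all
pairs have normalised degree at most `1 - k ^ (2 - q) + o(1)` or at least `1 - ε` have density at
most `1 - k ^ (1 - q) + o(1)`. In the construction the pairs have degree `1 - k ^ (2 - q) + o(1)`
(pairs in a class) or `1`.

(C) Independent sets. A set of vertices is independent if it contains no edge. An `s`-graph is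
`K_m^s`-free if any `m` vertices contain `s` independent ones; now we ask for `q` independent ones.
For all `s ≥ 3`, `k ≥ 2` there are `c > 0` and `q₀` such that for `q ≥ q₀` and
`k (q - 1) < m ≤ (k + c) q` the maximum density of the `s`-graphs in which any `m` vertices contain
`q` independent ones is exactly `1 - k ^ (1 - s)`. For `s = 3`, `k = 2` this holds for `q ≥ 4`,
`m = 2 q - 1`, and for `2 (q - 1) < m ≤ (7 q - 9) / 3`. It fails if `m > (k + 1/(s - 1)) (q - 1)`.
Consequently the Turán densities of `K_m^q` with respect to the `p`-th powers of the degrees of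
the `s`-sets tend to `1 - k ^ (1 - s)` as `p → ∞`.

Proofs. (A), (B): the pairs of almost full degree form a graph with few `K_{k+1}` (because `q - 2`
copies of `K_k` and one of `K_{k+1}` have `m` vertices and each `q`-set of them contains an edge of
the graph) and almost `(1 - 1/k) n²/2` edges; this gives a partition; every edge and every pair of
almost full degree inside a class force many missing edges across the classes. (C): induction on
`s`: in a nearly extremal `s`-graph all degrees are nearly equal, in a random sample no independent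
set is much larger than the proportion `1/k`, so the `(s-1)`-sets which form edges with more than the
proportion `1 - 1/k` of the sample have the local property for `s - 1`; this yields `k` classes of
`s` vertices such that all `s`-sets meeting two classes are edges, and the average degree of such a
configuration is at most `1 - k ^ (1 - s)`.

Joint work of helpers 594, 7, 38, 40, 50, 72, 75, 94, 123, 135, 225, 249, 252, 265, 286, 300, 373,
407, 415, 424, 441, 456, 481, 490, 498, 507, 527, 530, 545, 547, 570, 601, 624, 644, 655, 674, 704,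
738, 749, 814, 861, 901, 945, 971.
-/

set_option autoImplicit false

open Finset
open scoped Classical

namespace Pool.Agent.Results.MP_a4d830_co.TuranConstruction

/-- All edges of `G` have `s` elements: `G` is an `s`-graph. -/
def Uniform (s : ℕ) {n : ℕ} (G : Finset (Finset (Fin n))) : Prop := ∀ e ∈ G, e.card = s

/-- Any `m` vertices of `G` contain `q` vertices which contain no edge of `G`. -/
def HasIndependent (m q : ℕ) {n : ℕ} (G : Finset (Finset (Fin n))) : Prop :=
  ∀ S : Finset (Fin n), S.card = m → ∃ J ⊆ S, J.card = q ∧ ∀ e ∈ G, ¬ e ⊆ J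

/-- `G` contains no `K_m^t`: any `m` vertices contain a `t`-set which is not an edge. -/
def CliqueFree (t m : ℕ) {n : ℕ} (G : Finset (Finset (Fin n))) : Prop :=
  ∀ S : Finset (Fin n), S.card = m → ∃ e ⊆ S, e.card = t ∧ e ∉ G

/-- Turán's construction for the partition `π`: the `q`-sets not contained in a class of `π`. -/
noncomputable def construction (q : ℕ) {n k : ℕ} (π : Fin n → Fin k) : Finset (Finset (Fin n)) :=
  (univ.powersetCard q).filter fun e => ∃ x ∈ e, ∃ y ∈ e, π x ≠ π y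

/-- The sizes of the classes of `π` differ by at most one. -/
def Balanced {n k : ℕ} (π : Fin n → Fin k) : Prop :=
  ∀ i j : Fin k, (univ.filter fun v : Fin n => π v = i).card ≤
    (univ.filter fun v : Fin n => π v = j).card + 1

/-- Turán's construction for the residue classes modulo `k`. -/
noncomputable def turan (s k n : ℕ) : Finset (Finset (Fin n)) :=
  (univ.powersetCard s).filter fun e => ∃ x ∈ e, ∃ y ∈ e, x.val % k ≠ y.val % k

/-- The number of edges containing `X`. -/
def degree {n : ℕ} (G : Finset (Finset (Fin n))) (X : Finset (Fin n)) : ℕ :=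
  (G.filter fun e => X ⊆ e).card

/-- The sum over the `s`-sets `X` of vertices of the `p`-th powers of the degree of `X` in the
`q`-graph `G` divided by the largest possible degree `C(n - s, q - s)`. -/
noncomputable def powerSum (s q : ℕ) (p : ℝ) {n : ℕ} (G : Finset (Finset (Fin n))) : ℝ :=
  ∑ X ∈ (univ : Finset (Fin n)).powersetCard s,
    ((degree G X : ℝ) / ((n - s).choose (q - s) : ℝ)) ^ p

/-- (A) For large `p` and `n` the balanced constructions are the only `K_m^q`-free `q`-graphs on `n`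
vertices with the largest sum of the `p`-th powers of the degrees of the pairs, `m = k (q - 1) + 1`. -/
def NormExact (q k : ℕ) : Prop :=
  ∃ p₀ : ℝ, 1 ≤ p₀ ∧ ∃ n₀ : ℕ, ∀ p : ℝ, p₀ ≤ p → ∀ n : ℕ, n₀ ≤ n →
    (∀ G : Finset (Finset (Fin n)), Uniform q G → CliqueFree q (k * (q - 1) + 1) G →
      powerSum 2 q p G ≤ powerSum 2 q p (turan q k n) ∧
      (powerSum 2 q p (turan q k n) ≤ powerSum 2 q p G →
        ∃ π : Fin n → Fin k, Balanced π ∧ G = construction q π)) ∧
    (∀ π : Fin n → Fin k, Uniform q (construction q π) ∧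
      CliqueFree q (k * (q - 1) + 1) (construction q π)) ∧
    ∃ π : Fin n → Fin k, Balanced π ∧ turan q k n = construction q π

/-- (B) The density of a `K_m^q`-free `q`-graph, `m = k (q - 1) + 1`, is at most
`1 - k ^ (1 - q) + δ` if few pairs have normalised degree between `1 - k ^ (2 - q) + η` and `1 - ε`:
here `ε` depends on `q`, `k` only and `η` on `δ`, and few means at most `η C(n, 2)`. -/
def GapDensity (q k : ℕ) : Prop :=
  ∃ ε : ℝ, 0 < ε ∧ ε < 1 ∧ ∀ δ : ℝ, 0 < δ → ∃ η : ℝ, 0 < η ∧ ∃ N : ℕ, ∀ n : ℕ, N ≤ n →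
    ∀ G : Finset (Finset (Fin n)), Uniform q G → CliqueFree q (k * (q - 1) + 1) G →
    ((((univ : Finset (Fin n)).powersetCard 2).filter fun X =>
      (1 - 1 / (k : ℝ) ^ (q - 2) + η) * ((n - 2).choose (q - 2) : ℝ) < (degree G X : ℝ) ∧
        (degree G X : ℝ) < (1 - ε) * ((n - 2).choose (q - 2) : ℝ)).card : ℝ) ≤
      η * (n.choose 2 : ℝ) →
    (G.card : ℝ) ≤ (1 - 1 / (k : ℝ) ^ (q - 1) + δ) * (n.choose q : ℝ)

/-- (C) The maximum density of the `s`-graphs in which any `m` vertices contain `q` independent ones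
is `1 - 1 / k ^ (s - 1)`, attained by Turán's construction. -/
def Determined (s k m q : ℕ) : Prop :=
  (∀ ε : ℝ, 0 < ε → ∃ N : ℕ, ∀ n : ℕ, N ≤ n → ∀ G : Finset (Finset (Fin n)), Uniform s G →
    HasIndependent m q G → (G.card : ℝ) ≤ (1 - 1 / (k : ℝ) ^ (s - 1) + ε) * (n.choose s : ℝ)) ∧
  (∀ n : ℕ, Uniform s (turan s k n) ∧ HasIndependent m q (turan s k n)) ∧
  (∀ ε : ℝ, 0 < ε → ∃ N : ℕ, ∀ n : ℕ, N ≤ n →
    (1 - 1 / (k : ℝ) ^ (s - 1) - ε) * (n.choose s : ℝ) ≤ ((turan s k n).card : ℝ))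

/-- For the `q`-graphs without `K_m^q` the maximum of `powerSum`, divided by the number of `s`-sets,
tends to `1 - 1 / k ^ (s - 1)` as `p → ∞`, and Turán's construction is asymptotically optimal. -/
def NormLimit (s k m q : ℕ) : Prop :=
  (∀ ε : ℝ, 0 < ε → ∃ p₀ : ℝ, 1 ≤ p₀ ∧ ∃ N : ℕ, ∀ p : ℝ, p₀ ≤ p → ∀ n : ℕ, N ≤ n →
    ∀ G : Finset (Finset (Fin n)), Uniform q G → CliqueFree q m G →
    powerSum s q p G ≤ (1 - 1 / (k : ℝ) ^ (s - 1) + ε) * (n.choose s : ℝ)) ∧
  (∀ n : ℕ, Uniform q (turan q k n) ∧ CliqueFree q m (turan q k n)) ∧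
  (∀ ε : ℝ, 0 < ε → ∃ N : ℕ, ∀ n : ℕ, N ≤ n → ∀ p : ℝ,
    (1 - 1 / (k : ℝ) ^ (s - 1) - ε) * (n.choose s : ℝ) ≤ powerSum s q p (turan q k n))

/-- Turán's construction is not asymptotically optimal for `m > (k + 1/(s - 1)) (q - 1)`. -/
def NotOptimal (s k : ℕ) : Prop :=
  ∃ c : ℝ, 0 < c ∧ ∃ N : ℕ, ∀ n : ℕ, N ≤ n → ∃ G : Finset (Finset (Fin n)), Uniform s G ∧
    (∀ m q : ℕ, (k * (s - 1) + 1) * (q - 1) < (s - 1) * m → HasIndependent m q G) ∧
    (1 - 1 / (k : ℝ) ^ (s - 1) + c) * (n.choose s : ℝ) ≤ (G.card : ℝ)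

/-- The parameters for which (C) is proved, given `c > 0` and `q₀`: all `q ≥ q₀(s, k)` and
`m ≤ (k + c(s, k)) q`; for `s = 3`, `k = 2` all `q ≥ 4` and `m = 2 q - 1` or `m ≤ (7 q - 9) / 3`; for
`s = 2` all `m ≤ (k + 1) (q - 1)`. -/
def Admissible (c : ℕ → ℕ → ℝ) (q₀ : ℕ → ℕ → ℕ) (s k m q : ℕ) : Prop :=
  (3 ≤ s ∧ 2 ≤ k ∧ q₀ s k ≤ q ∧ (m : ℝ) ≤ (k + c s k) * q) ∨
  (s = 3 ∧ k = 2 ∧ 4 ≤ q ∧ (m = 2 * q - 1 ∨ 3 * m + 9 ≤ 7 * q)) ∨
  (s = 2 ∧ 1 ≤ k ∧ 2 ≤ q ∧ m ≤ (k + 1) * (q - 1))

open Pool.Agent.N594.CT Pool.Agent.N442.ES in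
theorem both {s k m q : ℕ} (hs : 2 ≤ s) (hk : 1 ≤ k) (hsq : s ≤ q) (hm : k * (q - 1) < m)
    (hA : SAM s k m q) : Determined s k m q ∧ NormLimit s k m q := by
  obtain ⟨d, rfl⟩ : ∃ d, s = d + 2 := ⟨s - 2, by omega⟩
  have hq : 1 ≤ q := by omega
  have hm1 : 1 ≤ m := by omega
  refine ⟨⟨?_, ?_, ?_⟩, ?_, ?_, ?_⟩
  · intro ε hε
    exact transferM (by omega) hk hm1 hA hε
  · intro n
    exact ⟨fun e he => (mem_powersetCard.mp (mem_filter.mp he).1).2, TC_localM hk hq hm⟩
  · intro ε hε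
    exact TC_lower d k hk hε
  · intro ε hε
    exact nsum_upperM Pool.Agent.N594.CT.TRM.main (by omega) hk hm1 hsq hA hε
  · intro n
    exact ⟨fun e he => (mem_powersetCard.mp (mem_filter.mp he).1).2, TC_kfreeM hk hq hm⟩
  · intro ε hε
    exact nsum_lower hk hsq hε

/-- a construction has no complete subgraph -/
theorem cons_free {q k n : ℕ} (hq : 1 ≤ q) (π : Fin n → Fin k) :
    CliqueFree q (k * (q - 1) + 1) (construction q π) := by
  intro S hS
  obtain ⟨j, -, hj⟩ := exists_lt_card_fiber_of_mul_lt_card_of_maps_to (s := S)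
    (t := (univ : Finset (Fin k))) (f := π) (n := q - 1) (fun x _ => mem_univ _)
    (by rw [card_univ, Fintype.card_fin, hS]; omega)
  obtain ⟨e, he, hec⟩ := exists_subset_card_eq (show q ≤ (S.filter fun x => π x = j).card by omega)
  refine ⟨e, he.trans (filter_subset _ _), hec, ?_⟩
  intro hmem
  obtain ⟨-, x, hx, y, hy, hxy⟩ := mem_filter.1 hmem
  exact hxy ((mem_filter.1 (he hx)).2.trans (mem_filter.1 (he hy)).2.symm)

theorem normExact {q k : ℕ} (hq : 3 ≤ q) (hk : 2 ≤ k) : NormExact q k := by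
  obtain ⟨d, rfl⟩ : ∃ d, q = d + 2 := ⟨q - 2, by omega⟩
  have hk0 : 0 < k := by omega
  obtain ⟨p₀, hp₀, N, h⟩ := Pool.Agent.N594.NT.exact_all d k (by omega) hk
  refine ⟨p₀, hp₀, max N k, fun p hp n hn => ⟨fun G hG hF => ?_, fun π => ⟨?_, cons_free (by omega) π⟩,
    ?_⟩⟩
  · have hex := h p hp n ((le_max_left _ _).trans hn) G hG hF
    have hcase : powerSum 2 (d + 2) p (turan (d + 2) k n) ≤ powerSum 2 (d + 2) p G →
        powerSum 2 (d + 2) p G ≤ powerSum 2 (d + 2) p (turan (d + 2) k n) ∧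
        ∃ π : Fin n → Fin k, Balanced π ∧ G = construction (d + 2) π := by
      intro hle
      obtain ⟨h5, π, h6, h7⟩ := hex hle
      exact ⟨h5, π, fun i j => h6 i j, h7⟩
    refine ⟨?_, fun hle => (hcase hle).2⟩
    rcases le_total (powerSum 2 (d + 2) p G) (powerSum 2 (d + 2) p (turan (d + 2) k n)) with h5 | h5
    · exact h5
    · exact (hcase h5).1
  · intro e he
    exact (mem_powersetCard.mp (mem_filter.mp he).1).2
  · refine ⟨Pool.Agent.N594.NT.rc k n hk0, ?_, Pool.Agent.N594.NT.TC_eq hk0⟩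
    intro i j
    have h1 := (Pool.Agent.N594.NT.ps_rc hk0 ((le_max_right _ _).trans hn) i).2
    have h2 := (Pool.Agent.N594.NT.ps_rc hk0 ((le_max_right _ _).trans hn) j).1
    unfold Pool.Agent.N594.NT.ps at h1 h2
    omega

theorem gapDensity {q k : ℕ} (hq : 3 ≤ q) (hk : 2 ≤ k) : GapDensity q k := by
  obtain ⟨d, rfl⟩ : ∃ d, q = d + 2 := ⟨q - 2, by omega⟩
  exact Pool.Agent.N594.NT.gap_fin Pool.Agent.N594.NT.gapw_all d k (by omega) hk

theorem notOptimal {s k : ℕ} (hs : 2 ≤ s) (hk : 1 ≤ k) : NotOptimal s k :=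
  Pool.Agent.N38.NT.NEG.main s k hs hk

/-- **Turán's construction.** (A) and (B) for all `q ≥ 4` and `k ≥ 2`; (C) for all `s ≥ 3`, `k ≥ 2`,
`q ≥ q₀(s, k)` and `k (q - 1) < m ≤ (k + c(s, k)) q` (explicitly for `s = 3`, `k = 2`), with the
limits of the norms of the `s`-sets; Turán's construction is not optimal in (C) if
`m > (k + 1/(s - 1)) (q - 1)`. -/
theorem result : (∀ q k : ℕ, 4 ≤ q → 2 ≤ k → NormExact q k ∧ GapDensity q k) ∧
    (∃ (c : ℕ → ℕ → ℝ) (q₀ : ℕ → ℕ → ℕ), (∀ s k, 0 < c s k) ∧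
      ∀ s k m q : ℕ, k * (q - 1) < m → Admissible c q₀ s k m q →
        Determined s k m q ∧ NormLimit s k m q) ∧
    ∀ s k : ℕ, 3 ≤ s → 1 ≤ k → NotOptimal s k := by
  refine ⟨fun q k hq hk => ⟨normExact (by omega) hk, gapDensity (by omega) hk⟩, ?_,
    fun s k hs hk => notOptimal (by omega) hk⟩
  have h : ∀ s k : ℕ, ∃ c' : ℝ, 0 < c' ∧ ∃ q0 : ℕ, 3 ≤ s → 2 ≤ k → s ≤ q0 ∧ ∀ q : ℕ, q0 ≤ q →
      ∀ m : ℕ, k * (q - 1) + 1 ≤ m → (m : ℝ) ≤ (k + c') * q →
      Pool.Agent.N594.CT.SAM s k m q := by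
    intro s k
    by_cases hs : 3 ≤ s ∧ 2 ≤ k
    · obtain ⟨c', hc', q0, h⟩ := Pool.Agent.N594.CT.densM_all hs.1 hs.2
      exact ⟨c', hc', max q0 s, fun _ _ => ⟨le_max_right _ _, fun q hq =>
        h q ((le_max_left _ _).trans hq)⟩⟩
    · exact ⟨1, one_pos, 0, fun h1 h2 => absurd ⟨h1, h2⟩ hs⟩
  choose c hc q₀ hq₀ using h
  refine ⟨c, q₀, hc, ?_⟩
  intro s k m q hm hadm
  rcases hadm with ⟨hs, hk, hq, hmc⟩ | ⟨rfl, rfl, hq, hmq⟩ | ⟨rfl, hk, hq, hmq⟩
  · obtain ⟨h1, h2⟩ := hq₀ s k hs hk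
    exact both (by omega) (by omega) (h1.trans hq) hm (h2 q hq m hm hmc)
  · exact both (by norm_num) (by norm_num) (by omega) hm (Pool.Agent.N594.CT.densM_three hq hm hmq)
  · exact both (by norm_num) hk hq hm
      (Pool.Agent.N594.CT.BAM.main Pool.Agent.N594.CT.WM.main k m q hk hq hm hmq)

end Pool.Agent.Results.MP_a4d830_co.TuranConstruction
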